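import Pool.Agent.V1191.UC.Conn

/-!
# MP_b3ccf3_an, Q1: strong unique continuation for `|∂̄u| ≤ V|u|` with `V ∈ L^{2n}_loc`
-/

set_option autoImplicit false

open MeasureTheory Filter Topology Metric
open scoped ENNReal

namespace Pool.Agent.Results.MP_b3ccf3_an.StrongUniqueContinuation

/-- the Wirtinger derivative `∂φ/∂z̄_j` of a test function -/
noncomputable def dbar {n : ℕ} (φ : EuclideanSpace ℂ (Fin n) → ℂ) (j : Fin n)
    (z : EuclideanSpace ℂ (Fin n)) : ℂ :=
  (fderiv ℝ φ z (EuclideanSpace.single j 1) +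
    Complex.I * fderiv ℝ φ z (EuclideanSpace.single j Complex.I)) / 2

/-- `f j` is the distributional derivative `∂u/∂z̄_j` on `Ω`, for every `j` -/
def IsWeakDbar {n m : ℕ} (Ω : Set (EuclideanSpace ℂ (Fin n)))
    (u : EuclideanSpace ℂ (Fin n) → EuclideanSpace ℂ (Fin m))
    (f : Fin n → EuclideanSpace ℂ (Fin n) → EuclideanSpace ℂ (Fin m)) : Prop :=
  ∀ (j : Fin n) (φ : EuclideanSpace ℂ (Fin n) → ℂ), ContDiff ℝ ((⊤ : ℕ∞) : WithTop ℕ∞) φ →
    HasCompactSupport φ → tsupport φ ⊆ Ω →
    ∫ z in Ω, dbar φ j z • u z = -∫ z in Ω, φ z • f j z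

/-- `u` vanishes to infinite order in the `L^s` sense at `z₀` -/
def VanishesToInfiniteOrder {n m : ℕ} (s : ℝ)
    (u : EuclideanSpace ℂ (Fin n) → EuclideanSpace ℂ (Fin m))
    (z₀ : EuclideanSpace ℂ (Fin n)) : Prop :=
  ∀ N : ℕ, Tendsto (fun r : ℝ => (∫⁻ z in ball z₀ r, ‖u z‖ₑ ^ s) / ENNReal.ofReal (r ^ N))
    (𝓝[>] 0) (𝓝 0)

theorem result (n m : ℕ) (hn : 2 ≤ n) (Ω : Set (EuclideanSpace ℂ (Fin n))) (hΩ : IsOpen Ω)
    (hΩc : IsConnected Ω)
    (u : EuclideanSpace ℂ (Fin n) → EuclideanSpace ℂ (Fin m))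
    (f : Fin n → EuclideanSpace ℂ (Fin n) → EuclideanSpace ℂ (Fin m))
    (V : EuclideanSpace ℂ (Fin n) → ℝ)
    (hu : LocallyIntegrableOn u Ω) (hf : ∀ j, LocallyIntegrableOn (f j) Ω)
    (hweak : IsWeakDbar Ω u f)
    (hV : ∀ K ⊆ Ω, IsCompact K → MemLp V (2 * n) (volume.restrict K))
    (hineq : ∀ᵐ z ∂(volume.restrict Ω), Real.sqrt (∑ j, ‖f j z‖ ^ 2) ≤ V z * ‖u z‖)
    (z₀ : EuclideanSpace ℂ (Fin n)) (hz₀ : z₀ ∈ Ω)
    (hvan : VanishesToInfiniteOrder (4 * n / (2 * n - 1)) u z₀) :
    ∀ᵐ z ∂(volume.restrict Ω), u z = 0 := by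
  have hn' : (2 : ℝ) ≤ n := by exact_mod_cast hn
  have hΩm : MeasurableSet Ω := hΩ.measurableSet
  -- measurable representatives
  have hVl : LocallyIntegrableOn V Ω := by
    rw [locallyIntegrableOn_iff hΩ.isLocallyClosed]
    intro K hK hKc
    haveI : IsFiniteMeasure (volume.restrict K) := ⟨by
      rw [Measure.restrict_apply_univ]; exact hKc.measure_lt_top⟩
    refine (hV K hK hKc).integrable ?_
    have : (1 : ℝ≥0∞) ≤ n := by exact_mod_cast (by omega : 1 ≤ n)
    calc (1 : ℝ≥0∞) ≤ n := this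
      _ ≤ 2 * n := by
        calc (n : ℝ≥0∞) = 1 * n := (one_mul _).symm
          _ ≤ 2 * n := by gcongr; norm_num
  have mu := hu.aestronglyMeasurable
  have mf := fun j => (hf j).aestronglyMeasurable
  have mV := hVl.aestronglyMeasurable
  set u' := mu.mk u with hu'
  set f' := fun j => (mf j).mk (f j) with hf'
  set V' := mV.mk V with hV'
  have eu : u =ᵐ[volume.restrict Ω] u' := mu.ae_eq_mk
  have ef : ∀ j, f j =ᵐ[volume.restrict Ω] f' j := fun j => (mf j).ae_eq_mk
  have eV : V =ᵐ[volume.restrict Ω] V' := mV.ae_eq_mk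
  have um : Measurable u' := mu.stronglyMeasurable_mk.measurable
  have fm : ∀ j, Measurable (f' j) := fun j => (mf j).stronglyMeasurable_mk.measurable
  have Vm : Measurable V' := mV.stronglyMeasurable_mk.measurable
  have hsub : ∀ {K : Set (EuclideanSpace ℂ (Fin n))}, K ⊆ Ω →
      volume.restrict K ≤ volume.restrict Ω := fun h => Measure.restrict_mono_set _ h
  set W : EuclideanSpace ℂ (Fin n) → ℝ≥0∞ := fun z => n * ‖V' z‖ₑ with hW
  have hconc := Pool.Agent.V1191.UC.global_zero (n := n) (G := EuclideanSpace ℂ (Fin m)) hn hΩ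
    hΩc.isPreconnected hz₀ (u := u') (f := f') (V := W) um fm (Vm.enorm.const_mul _)
    (by
      intro K hK hKc
      have h1 : IntegrableOn u K := hu.integrableOn_compact_subset hK hKc
      exact h1.congr_fun_ae (ae_mono (hsub hK) eu))
    (by
      intro j K hK hKc
      have h1 : IntegrableOn (f j) K := (hf j).integrableOn_compact_subset hK hKc
      exact h1.congr_fun_ae (ae_mono (hsub hK) (ef j)))
    (by
      intro j ψ hψ hψc hψs
      have h1 := hweak j ψ hψ hψc hψs
      have hdb : ∀ z, Pool.Agent.V1191.UC.db ψ z (Pool.Agent.V1191.UC.ev j) = dbar ψ j z := by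
        intro z
        unfold Pool.Agent.V1191.UC.db Pool.Agent.V1191.UC.ev dbar
        have : Complex.I • (EuclideanSpace.single j (1 : ℂ)) = EuclideanSpace.single j Complex.I := by
          ext i
          simp [PiLp.single_apply]
        rw [this]
        simp only [smul_eq_mul]
        ring
      have e1 : ∫ z, Pool.Agent.V1191.UC.db ψ z (Pool.Agent.V1191.UC.ev j) • u' z
          = ∫ z in Ω, dbar ψ j z • u z := by
        rw [← setIntegral_eq_integral_of_forall_compl_eq_zero (s := Ω)]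
        · apply integral_congr_ae
          filter_upwards [eu] with z hz
          rw [hdb, hz]
        · intro z hz
          rw [Pool.Agent.V1191.UC.db_zero_of_nhds (c := 0)
            (notMem_tsupport_iff_eventuallyEq.mp fun h => hz (hψs h)), zero_smul]
      have e2 : ∫ z, ψ z • f' j z = ∫ z in Ω, ψ z • f j z := by
        rw [← setIntegral_eq_integral_of_forall_compl_eq_zero (s := Ω)]
        · apply integral_congr_ae
          filter_upwards [ef j] with z hz
          rw [hz]
        · intro z hz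
          rw [image_eq_zero_of_notMem_tsupport fun h => hz (hψs h), zero_smul]
      rw [e1, e2, h1])
    (by
      intro K hK hKc
      have h1 := lintegral_rpow_enorm_lt_top_of_eLpNorm_lt_top (p := 2 * n) (by
        simp; omega) (by simp [ENNReal.mul_eq_top]) (hV K hK hKc).2
      have h2 : (2 * (n : ℝ≥0∞)).toReal = 2 * n := by simp
      rw [h2] at h1
      have h3 : ∫⁻ z in K, W z ^ (2 * n : ℝ) = ∫⁻ z in K, (n : ℝ≥0∞) ^ (2 * n : ℝ) * ‖V z‖ₑ ^ (2 * n : ℝ) := by
        apply lintegral_congr_ae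
        filter_upwards [ae_mono (hsub hK) eV] with z hz
        rw [hW]
        simp only
        rw [ENNReal.mul_rpow_of_nonneg _ _ (by positivity), hz]
      rw [h3, lintegral_const_mul' _ _ (ENNReal.rpow_ne_top_of_nonneg (by positivity)
        (ENNReal.natCast_ne_top n))]
      exact ENNReal.mul_lt_top (ENNReal.rpow_ne_top_of_nonneg (by positivity)
        (ENNReal.natCast_ne_top n)).lt_top h1)
    (by
      rw [← ae_restrict_iff' hΩm]
      filter_upwards [hineq, eu, eV, ae_all_iff.mpr ef] with z h1 h2 h3 h4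
      have hj : ∀ j, ‖f' j z‖ₑ ≤ ‖V' z‖ₑ * ‖u' z‖ₑ := by
        intro j
        rw [← h4 j, ← h2, ← h3, ← enorm_norm (f j z), ← enorm_norm (u z), ← enorm_mul]
        rw [Real.enorm_eq_ofReal_abs, Real.enorm_eq_ofReal_abs]
        apply ENNReal.ofReal_le_ofReal
        rw [abs_of_nonneg (norm_nonneg _)]
        calc ‖f j z‖ ≤ Real.sqrt (∑ j, ‖f j z‖ ^ 2) := by
              apply Real.le_sqrt_of_sq_le
              exact Finset.single_le_sum (f := fun j => ‖f j z‖ ^ 2) (fun _ _ => by positivity)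
                (Finset.mem_univ j)
          _ ≤ V z * ‖u z‖ := h1
          _ ≤ |V z * ‖u z‖| := le_abs_self _
      calc ∑ j, ‖f' j z‖ₑ ≤ ∑ _j : Fin n, ‖V' z‖ₑ * ‖u' z‖ₑ := Finset.sum_le_sum fun j _ => hj j
        _ = W z * ‖u' z‖ₑ := by
            rw [Finset.sum_const, Finset.card_univ, Fintype.card_fin, nsmul_eq_mul, hW]
            simp only
            ring)
    (by
      intro N
      obtain ⟨R, hR, hRs⟩ := Metric.isOpen_iff.mp hΩ z₀ hz₀
      refine (hvan N).congr' ?_
      filter_upwards [Ioo_mem_nhdsGT hR] with r hr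
      congr 1
      apply lintegral_congr_ae
      filter_upwards [ae_mono (hsub ((ball_subset_ball hr.2.le).trans hRs)) eu] with z hz
      rw [hz]
      rfl)
  rw [← ae_restrict_iff' hΩm] at hconc
  filter_upwards [hconc, eu] with z h1 h2
  rw [h2, h1]

end Pool.Agent.Results.MP_b3ccf3_an.StrongUniqueContinuation
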